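import Pool.Agent.Helper31.LW.Goals
import Pool.Agent.Helper47.AQ.Affine
import Pool.Agent.Helper47.AQ.FreeSum

/-!
# XV: the volume of the move does not depend on the parameter
-/

open MeasureTheory Set
open scoped ENNReal Pointwise
open Pool.Agent.Helper47.AQ

noncomputable section

namespace Pool.Agent.Helper46.LW

open Pool.Agent.Helper31.LW

/-- The convex hull of a finite family is a body if the differences span everything. -/
theorem body_hull {ι : Type} [Fintype ι] [DecidableEq ι] {σ : Type} [Finite σ] (v : σ → ι → ℝ)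
    (a : σ) (h : ∀ i : ι, (Pi.single i 1 : ι → ℝ) ∈ vectorSpan ℝ (range v)) :
    IsBody (convexHull ℝ (range v)) where
  conv := convex_convexHull ℝ _
  comp := (finite_range v).isCompact_convexHull ℝ
  int := by
    rw [interior_convexHull_nonempty_iff_affineSpan_eq_top,
      AffineSubspace.affineSpan_eq_top_iff_vectorSpan_eq_top_of_nonempty ℝ _ _
        ⟨v a, mem_range_self a⟩, eq_top_iff]
    rintro x -
    have hx : x = ∑ i, x i • (Pi.single i 1 : ι → ℝ) := by
      funext l
      simp [Finset.sum_apply, Pi.single_apply]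
    rw [hx]
    exact Submodule.sum_mem _ fun i _ => Submodule.smul_mem _ _ (h i)

variable {n k : ℕ}

/-- The block of `q`. -/
abbrev BB (g : Fin n → Fin k) (q : Fin n) : Type := {i : Fin n // g i = g q}

/-- The complement of the block of `q`. -/
abbrev CC (g : Fin n → Fin k) (q : Fin n) : Type := {i : Fin n // ¬ g i = g q}

/-- The vertices of the simplex in the block of `q`. -/
def pt (g : Fin n → Fin k) (w : Fin n → ℝ) (q : Fin n) (s : ℝ) (o : Option (BB g q)) :
    BB g q → ℝ :=
  fun b => Option.elim o (pb g w q s (g q) b.1) (fun i => pa g w q s i.1 b.1)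

/-- The vertices of the other part. -/
def apt (g : Fin n → Fin k) (w : Fin n → ℝ) (q : Fin n) (o : Fin k ⊕ CC g q) :
    CC g q → ℝ :=
  Sum.elim (fun j => fun c : CC g q => -(wv g w j) c.1) (fun i => Pi.single i 1) o

theorem pt_none (g : Fin n → Fin k) (w : Fin n → ℝ) (q : Fin n) (s : ℝ) (b : BB g q) :
    pt g w q s none b = -w b.1 + (if b.1 = q then dl g w q s - 1 else 0) := by
  simp only [pt, Option.elim_none, pb, if_true, Pi.add_apply, Pi.neg_apply, wv, b.2,
    Pi.single_apply]

theorem pt_q (g : Fin n → Fin k) (w : Fin n → ℝ) (q : Fin n) (s : ℝ) (b : BB g q) :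
    pt g w q s (some ⟨q, rfl⟩) b = -w b.1 + (if b.1 = q then 1 + dl g w q s else 0) := by
  simp only [pt, Option.elim_some, pa, if_true, Pi.add_apply, Pi.neg_apply, wv, b.2,
    Pi.single_apply]

theorem pt_some (g : Fin n → Fin k) (w : Fin n → ℝ) (q : Fin n) (s : ℝ) (i : BB g q)
    (hi : i.1 ≠ q) (b : BB g q) :
    pt g w q s (some i) b = (if b = i then 1 else 0) + (if b.1 = q then dl g w q s else 0) := by
  simp only [pt, Option.elim_some, pa, hi, if_false, i.2, if_true, Pi.add_apply,
    Pi.single_apply]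
  congr 1
  by_cases h : b = i
  · simp [h]
  · rw [if_neg h, if_neg (fun h' => h (Subtype.ext h'))]

theorem sum_block (g : Fin n → Fin k) (w : Fin n → ℝ) (q : Fin n) :
    ∑ i, wv g w (g q) i = ∑ b : BB g q, w b.1 := by
  unfold wv
  rw [← Finset.sum_filter]
  exact (Finset.sum_subtype (Finset.univ.filter fun i => g i = g q) (by simp) w)

theorem body_Q (g : Fin n → Fin k) (w : Fin n → ℝ) (q : Fin n) (hw : ∀ i, 0 ≤ w i) (hq : w q = 0)
    (s : ℝ) : IsBody (convexHull ℝ (range (pt g w q s))) := by
  refine body_hull _ none ?_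
  set V := vectorSpan ℝ (range (pt g w q s)) with hV
  have hW : 0 ≤ ∑ b : BB g q, w b.1 := Finset.sum_nonneg fun b _ => hw _
  have h1 : (Pi.single (⟨q, rfl⟩ : BB g q) 1 : BB g q → ℝ) ∈ V := by
    have h := vsub_mem_vectorSpan ℝ (mem_range_self (f := pt g w q s) (some ⟨q, rfl⟩))
      (mem_range_self (f := pt g w q s) none)
    have h2 := V.smul_mem (1 / 2 : ℝ) h
    convert h2 using 1
    funext b
    rw [Pi.smul_apply, vsub_eq_sub, Pi.sub_apply, pt_none, pt_q, Pi.single_apply, smul_eq_mul]
    by_cases hb : b.1 = q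
    · rw [if_pos hb, if_pos hb, if_pos (Subtype.ext hb)]
      ring
    · rw [if_neg hb, if_neg hb, if_neg (fun h' => hb (congrArg Subtype.val h'))]
      ring
  have h2 : ∀ i : BB g q, i.1 ≠ q →
      (Pi.single i 1 + (fun b : BB g q => w b.1) : BB g q → ℝ) ∈ V := by
    intro i hi
    have h := vsub_mem_vectorSpan ℝ (mem_range_self (f := pt g w q s) (some i))
      (mem_range_self (f := pt g w q s) none)
    have h3 := V.sub_mem h h1
    convert h3 using 1
    funext b
    rw [Pi.sub_apply, vsub_eq_sub, Pi.sub_apply, pt_none, pt_some g w q s i hi, Pi.add_apply,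
      Pi.single_apply, Pi.single_apply]
    by_cases hb : b.1 = q
    · rw [if_pos hb, if_pos hb, if_pos (Subtype.ext hb : b = ⟨q, rfl⟩)]
      ring
    · rw [if_neg hb, if_neg hb,
        if_neg (fun h' : b = (⟨q, rfl⟩ : BB g q) => hb (congrArg Subtype.val h'))]
      ring
  have h3 : (fun b : BB g q => w b.1) ∈ V := by
    have h : ∑ i : BB g q, w i.1 • (Pi.single i 1 + (fun b : BB g q => w b.1) : BB g q → ℝ) ∈ V := by
      refine Submodule.sum_mem _ fun i _ => ?_
      by_cases hi : i.1 = q
      · rw [hi, hq, zero_smul]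
        exact V.zero_mem
      · exact V.smul_mem _ (h2 i hi)
    have h4 := V.smul_mem (1 / (1 + ∑ b : BB g q, w b.1) : ℝ) h
    convert h4 using 1
    funext b
    simp only [Pi.smul_apply, Finset.sum_apply, Pi.add_apply, smul_eq_mul, mul_add,
      Finset.sum_add_distrib, ← Finset.sum_mul]
    have h5 : ∑ i : BB g q, w i.1 * (Pi.single i 1 : BB g q → ℝ) b = w b.1 := by
      rw [Finset.sum_eq_single b]
      · simp
      · intro i _ hi
        rw [Pi.single_apply, if_neg (fun h => hi h.symm), mul_zero]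
      · intro h
        exact absurd (Finset.mem_univ b) h
    rw [h5]
    have h6 : (1 + ∑ b : BB g q, w b.1) ≠ 0 := by positivity
    field_simp
  intro i
  by_cases hi : i.1 = q
  · have : i = ⟨q, rfl⟩ := Subtype.ext hi
    rw [this]
    exact h1
  · have := V.sub_mem (h2 i hi) h3
    simpa using this

theorem zero_mem_Q (g : Fin n → Fin k) (w : Fin n → ℝ) (q : Fin n) (hw : ∀ i, 0 ≤ w i)
    (hq : w q = 0) (s : ℝ) (hs : s ∈ Icc (0 : ℝ) 1) :
    (0 : BB g q → ℝ) ∈ convexHull ℝ (range (pt g w q s)) := by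
  set W := ∑ b : BB g q, w b.1 with hWd
  have hW : 0 ≤ W := Finset.sum_nonneg fun b _ => hw _
  set m : ℝ := 1 / (1 + W) with hm
  have hm0 : 0 < m := by positivity
  have hm1 : m * (1 + W) = 1 := by rw [hm]; field_simp
  have hd : dl g w q s = (1 - 2 * s) * m := by
    unfold dl
    rw [sum_block, ← hWd, hm]
    ring
  have hd1 : dl g w q s ≤ m := by
    rw [hd]; nlinarith [hs.1]
  have hd2 : -m ≤ dl g w q s := by
    rw [hd]; nlinarith [hs.2]
  set c : Option (BB g q) → ℝ := fun o => Option.elim o ((m + dl g w q s) / 2)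
    (fun i => m * w i.1 + (if i = ⟨q, rfl⟩ then (m - dl g w q s) / 2 else 0)) with hc
  have hc0 : ∀ o ∈ (Finset.univ : Finset (Option (BB g q))), 0 ≤ c o := by
    rintro (_ | i) -
    · show 0 ≤ (m + dl g w q s) / 2
      linarith
    · show 0 ≤ m * w i.1 + (if i = ⟨q, rfl⟩ then (m - dl g w q s) / 2 else 0)
      have h1 := mul_nonneg hm0.le (hw i.1)
      split_ifs
      · linarith
      · linarith
  have hc1 : ∑ o, c o = 1 := by
    rw [Fintype.sum_option]
    show (m + dl g w q s) / 2 + ∑ i : BB g q, (m * w i.1 +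
      (if i = ⟨q, rfl⟩ then (m - dl g w q s) / 2 else 0)) = 1
    rw [Finset.sum_add_distrib, ← Finset.mul_sum, Finset.sum_ite_eq' Finset.univ]
    simp only [Finset.mem_univ, if_true]
    rw [← hWd]
    linarith
  have hmem := (convex_convexHull ℝ (range (pt g w q s))).sum_mem hc0 hc1
    (fun o _ => subset_convexHull ℝ _ (mem_range_self o))
  convert hmem using 1
  funext b
  rw [Fintype.sum_option, Pi.zero_apply, Pi.add_apply, Finset.sum_apply, Pi.smul_apply, pt_none,
    smul_eq_mul]
  have h1 : ∀ i : BB g q, (c (some i) • pt g w q s (some i)) b =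
      (if i = b then m * w i.1 else 0) + m * (if b.1 = q then dl g w q s else 0) * w i.1 +
      (if i = ⟨q, rfl⟩ then (m - dl g w q s) / 2 *
        (-w b.1 + (if b.1 = q then 1 + dl g w q s else 0)) else 0) := by
    intro i
    rw [Pi.smul_apply, smul_eq_mul]
    show (m * w i.1 + (if i = ⟨q, rfl⟩ then (m - dl g w q s) / 2 else 0)) * _ = _
    by_cases hi : i = ⟨q, rfl⟩
    · rw [hi, pt_q, if_pos rfl, if_pos rfl]
      simp only [hq, mul_zero, ite_self, zero_add]
    · have hi' : i.1 ≠ q := fun h => hi (Subtype.ext h)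
      rw [pt_some g w q s i hi', if_neg hi, if_neg hi]
      by_cases hb : i = b
      · rw [if_pos hb, if_pos hb.symm]; ring
      · rw [if_neg hb, if_neg (fun h => hb h.symm)]; ring
  simp only [h1]
  rw [Finset.sum_add_distrib, Finset.sum_add_distrib, Finset.sum_ite_eq' Finset.univ,
    Finset.sum_ite_eq' Finset.univ, ← Finset.mul_sum]
  simp only [Finset.mem_univ, if_true]
  rw [← hWd]
  show 0 = (m + dl g w q s) / 2 * _ + _
  by_cases hb : b.1 = q
  · simp only [hb, hq, if_true]
    have : dl g w q s * (m * (1 + W)) = dl g w q s := by rw [hm1, mul_one]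
    linear_combination -this
  · simp only [if_neg hb]
    ring

theorem body_A (g : Fin n → Fin k) (w : Fin n → ℝ) (q : Fin n) :
    IsBody (convexHull ℝ (range (apt g w q))) := by
  refine body_hull _ (Sum.inl (g q)) ?_
  intro i
  have h := vsub_mem_vectorSpan ℝ (mem_range_self (f := apt g w q) (Sum.inr i))
    (mem_range_self (f := apt g w q) (Sum.inl (g q)))
  convert h using 1
  funext c
  rw [vsub_eq_sub, Pi.sub_apply]
  show _ = (Pi.single i 1 : CC g q → ℝ) c - (-(wv g w (g q)) c.1)
  rw [wv, if_neg c.2]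
  simp

theorem zero_mem_A (g : Fin n → Fin k) (w : Fin n → ℝ) (q : Fin n) :
    (0 : CC g q → ℝ) ∈ convexHull ℝ (range (apt g w q)) := by
  refine subset_convexHull ℝ _ ⟨Sum.inl (g q), ?_⟩
  funext c
  show -(wv g w (g q)) c.1 = 0
  rw [wv, if_neg c.2, neg_zero]

/-- The embedding of the block. -/
def L1 (g : Fin n → Fin k) (q : Fin n) : (BB g q → ℝ) →ₗ[ℝ] (Fin n → ℝ) where
  toFun x := fun i => if h : g i = g q then x ⟨i, h⟩ else 0
  map_add' x y := by
    funext i
    by_cases h : g i = g q
    · simp [h]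
    · simp [h]
  map_smul' t x := by
    funext i
    by_cases h : g i = g q
    · simp [h]
    · simp [h]

/-- The embedding of the complement. -/
def L2 (g : Fin n → Fin k) (q : Fin n) : (CC g q → ℝ) →ₗ[ℝ] (Fin n → ℝ) where
  toFun x := fun i => if h : g i = g q then 0 else x ⟨i, h⟩
  map_add' x y := by
    funext i
    by_cases h : g i = g q
    · simp [h]
    · simp [h]
  map_smul' t x := by
    funext i
    by_cases h : g i = g q
    · simp [h]
    · simp [h]

theorem elim_eq (g : Fin n → Fin k) (q : Fin n) (x : BB g q → ℝ) (y : CC g q → ℝ) :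
    (Sum.elim x y : BB g q ⊕ CC g q → ℝ) ∘ (Equiv.sumCompl fun i => g i = g q).symm =
      L1 g q x + L2 g q y := by
  funext i
  by_cases h : g i = g q
  · simp only [Function.comp_apply, Equiv.sumCompl_symm_apply_of_pos h, Sum.elim_inl, Pi.add_apply]
    simp [L1, L2, h]
  · simp only [Function.comp_apply, Equiv.sumCompl_symm_apply_of_neg h, Sum.elim_inr, Pi.add_apply]
    simp [L1, L2, h]

theorem L1_some (g : Fin n → Fin k) (w : Fin n → ℝ) (q : Fin n) (s : ℝ) (i : BB g q) :
    L1 g q (pt g w q s (some i)) = pa g w q s i.1 := by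
  funext l
  show (if h : g l = g q then pa g w q s i.1 l else 0) = _
  by_cases h : g l = g q
  · rw [dif_pos h]
  · rw [dif_neg h]
    have hlq : l ≠ q := fun e => h (by rw [e])
    have hli : l ≠ i.1 := fun e => h (by rw [e]; exact i.2)
    unfold pa
    split_ifs with h1 h2
    · simp [wv, h, Pi.single_apply, hlq]
    · simp [Pi.single_apply, hlq, hli]
    · exact absurd i.2 h2

theorem L1_none (g : Fin n → Fin k) (w : Fin n → ℝ) (q : Fin n) (s : ℝ) :
    L1 g q (pt g w q s none) = pb g w q s (g q) := by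
  funext l
  show (if h : g l = g q then pb g w q s (g q) l else 0) = _
  by_cases h : g l = g q
  · rw [dif_pos h]
  · rw [dif_neg h]
    have hlq : l ≠ q := fun e => h (by rw [e])
    simp [pb, wv, h, Pi.single_apply, hlq]

theorem L2_inl (g : Fin n → Fin k) (w : Fin n → ℝ) (q : Fin n) (s : ℝ) (j : Fin k) (hj : j ≠ g q) :
    L2 g q (apt g w q (Sum.inl j)) = pb g w q s j := by
  funext l
  show (if h : g l = g q then 0 else -(wv g w j) l) = _
  by_cases h : g l = g q
  · rw [dif_pos h]
    have : ¬ g l = j := fun e => hj (by rw [← e, h])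
    simp [pb, wv, hj, this]
  · rw [dif_neg h]
    simp [pb, hj]

theorem L2_inr (g : Fin n → Fin k) (w : Fin n → ℝ) (q : Fin n) (s : ℝ) (i : CC g q) :
    L2 g q (apt g w q (Sum.inr i)) = pa g w q s i.1 := by
  have hiq : i.1 ≠ q := fun e => i.2 (by rw [e])
  funext l
  show (if h : g l = g q then 0 else (Pi.single i 1 : CC g q → ℝ) ⟨l, h⟩) = _
  unfold pa
  rw [if_neg hiq, if_neg i.2]
  by_cases h : g l = g q
  · rw [dif_pos h]
    have : l ≠ i.1 := fun e => i.2 (by rw [← e]; exact h)
    simp [Pi.single_apply, this]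
  · rw [dif_neg h, Pi.single_apply, Pi.single_apply]
    by_cases hl : l = i.1
    · rw [if_pos hl, if_pos (Subtype.ext hl)]
    · rw [if_neg hl, if_neg (fun e => hl (congrArg Subtype.val e))]

theorem L2_gq (g : Fin n → Fin k) (w : Fin n → ℝ) (q : Fin n) :
    apt g w q (Sum.inl (g q)) = 0 := by
  funext c
  show -(wv g w (g q)) c.1 = 0
  rw [wv, if_neg c.2, neg_zero]

theorem XF_eq (g : Fin n → Fin k) (w : Fin n → ℝ) (q : Fin n) (hw : ∀ i, 0 ≤ w i)
    (hq : w q = 0) (s : ℝ) (hs : s ∈ Icc (0 : ℝ) 1) :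
    XF g w q s = (fun x : BB g q ⊕ CC g q → ℝ => x ∘ (Equiv.sumCompl fun i => g i = g q).symm) ''
      freeSum (convexHull ℝ (range (pt g w q s))) (convexHull ℝ (range (apt g w q))) := by
  have hQ := body_Q g w q hw hq s
  have hA := body_A g w q
  have hQ0 := zero_mem_Q g w q hw hq s hs
  have hA0 := zero_mem_A g w q
  have hXc : Convex ℝ (XF g w q s) := convex_convexHull ℝ _
  have hpa : ∀ i, pa g w q s i ∈ XF g w q s := fun i =>
    subset_convexHull ℝ _ (Or.inl (mem_range_self i))
  have hpb : ∀ j, pb g w q s j ∈ XF g w q s := fun j =>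
    subset_convexHull ℝ _ (Or.inr (mem_range_self j))
  have hF1 : ∀ x ∈ convexHull ℝ (range (pt g w q s)), L1 g q x ∈ XF g w q s := by
    have : convexHull ℝ (range (pt g w q s)) ⊆ (L1 g q) ⁻¹' XF g w q s := by
      refine convexHull_min ?_ (hXc.linear_preimage (L1 g q))
      rintro _ ⟨o, rfl⟩
      rcases o with _ | i
      · show L1 g q (pt g w q s none) ∈ XF g w q s
        rw [L1_none]
        exact hpb _
      · show L1 g q (pt g w q s (some i)) ∈ XF g w q s
        rw [L1_some]
        exact hpa _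
    exact this
  have h0 : (0 : Fin n → ℝ) ∈ XF g w q s := by
    have := hF1 0 hQ0
    rwa [map_zero] at this
  have hF2 : ∀ y ∈ convexHull ℝ (range (apt g w q)), L2 g q y ∈ XF g w q s := by
    have : convexHull ℝ (range (apt g w q)) ⊆ (L2 g q) ⁻¹' XF g w q s := by
      refine convexHull_min ?_ (hXc.linear_preimage (L2 g q))
      rintro _ ⟨o, rfl⟩
      rcases o with j | i
      · show L2 g q (apt g w q (Sum.inl j)) ∈ XF g w q s
        by_cases hj : j = g q
        · rw [hj, L2_gq, map_zero]
          exact h0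
        · rw [L2_inl g w q s j hj]
          exact hpb _
      · show L2 g q (apt g w q (Sum.inr i)) ∈ XF g w q s
        rw [L2_inr g w q s]
        exact hpa _
    exact this
  apply Subset.antisymm
  · refine convexHull_min ?_ ?_
    · have key : ∀ (x : BB g q → ℝ) (y : CC g q → ℝ), x ∈ convexHull ℝ (range (pt g w q s)) →
          y ∈ convexHull ℝ (range (apt g w q)) → ∀ z, z = L1 g q x ∨ z = L2 g q y →
          z ∈ (fun x : BB g q ⊕ CC g q → ℝ => x ∘ (Equiv.sumCompl fun i => g i = g q).symm) ''
            freeSum (convexHull ℝ (range (pt g w q s))) (convexHull ℝ (range (apt g w q))) := by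
        intro x y hx hy z hz
        rcases hz with hz | hz
        · refine ⟨Sum.elim x 0, subset_convexHull ℝ _ (Or.inl ⟨x, hx, rfl⟩), ?_⟩
          show (Sum.elim x 0 : BB g q ⊕ CC g q → ℝ) ∘ _ = z
          rw [elim_eq, map_zero, add_zero, hz]
        · refine ⟨Sum.elim 0 y, subset_convexHull ℝ _ (Or.inr ⟨y, hy, rfl⟩), ?_⟩
          show (Sum.elim 0 y : BB g q ⊕ CC g q → ℝ) ∘ _ = z
          rw [elim_eq, map_zero, zero_add, hz]
      rintro _ (⟨i, rfl⟩ | ⟨j, rfl⟩)
      · by_cases hi : g i = g q
        · refine key (pt g w q s (some ⟨i, hi⟩)) 0 (subset_convexHull ℝ _ (mem_range_self _)) hA0 _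
            (Or.inl ?_)
          rw [L1_some]
        · refine key 0 (apt g w q (Sum.inr ⟨i, hi⟩)) hQ0 (subset_convexHull ℝ _ (mem_range_self _)) _
            (Or.inr ?_)
          rw [L2_inr g w q s]
      · by_cases hj : j = g q
        · refine key (pt g w q s none) 0 (subset_convexHull ℝ _ (mem_range_self _)) hA0 _
            (Or.inl ?_)
          rw [L1_none, hj]
        · refine key 0 (apt g w q (Sum.inl j)) hQ0 (subset_convexHull ℝ _ (mem_range_self _)) _
            (Or.inr ?_)
          rw [L2_inl g w q s j hj]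
    · have hc : Convex ℝ (freeSum (convexHull ℝ (range (pt g w q s)))
          (convexHull ℝ (range (apt g w q)))) := convex_convexHull ℝ _
      exact hc.linear_image
        (LinearEquiv.funCongrLeft ℝ ℝ (Equiv.sumCompl fun i => g i = g q).symm).toLinearMap
  · rintro _ ⟨z, hz, rfl⟩
    rw [mem_freeSum hQ.conv hA.conv hQ.nonempty hA.nonempty] at hz
    obtain ⟨t, ht, x, hx, y, hy, rfl⟩ := hz
    show (Sum.elim (t • x) ((1 - t) • y) : BB g q ⊕ CC g q → ℝ) ∘ _ ∈ XF g w q s
    rw [elim_eq, map_smul, map_smul]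
    exact hXc (hF1 x hx) (hF2 y hy) ht.1 (by linarith [ht.2]) (by ring)

theorem vol_Q (g : Fin n → Fin k) (w : Fin n → ℝ) (q : Fin n) (s : ℝ) :
    volume (convexHull ℝ (range (pt g w q s))) = volume (convexHull ℝ (range (pt g w q 0))) := by
  set v : BB g q → ℝ := fun b => if b.1 = q then dl g w q s - dl g w q 0 else 0 with hv
  have h1 : range (pt g w q s) = v +ᵥ range (pt g w q 0) := by
    have h2 : ∀ o, pt g w q s o = v + pt g w q 0 o := by
      intro o
      funext b
      rw [Pi.add_apply]
      show _ = (if b.1 = q then dl g w q s - dl g w q 0 else 0) + _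
      rcases o with _ | i
      · rw [pt_none, pt_none]
        by_cases hb : b.1 = q
        · simp only [if_pos hb]; ring
        · simp only [if_neg hb]; ring
      · by_cases hi : i = ⟨q, rfl⟩
        · rw [hi, pt_q, pt_q]
          by_cases hb : b.1 = q
          · simp only [if_pos hb]; ring
          · simp only [if_neg hb]; ring
        · have hi' : i.1 ≠ q := fun h => hi (Subtype.ext h)
          rw [pt_some g w q s i hi', pt_some g w q 0 i hi']
          by_cases hb : b.1 = q
          · simp only [if_pos hb]; ring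
          · simp only [if_neg hb]; ring
    ext x
    constructor
    · rintro ⟨o, rfl⟩
      exact ⟨pt g w q 0 o, mem_range_self o, (h2 o).symm⟩
    · rintro ⟨_, ⟨o, rfl⟩, rfl⟩
      exact ⟨o, h2 o⟩
  rw [h1, convexHull_vadd, measure_vadd]

theorem gXV : Pool.Agent.Helper31.LW.XV := by
  intro n k g w q hw hq s hs
  have h0 : (0 : ℝ) ∈ Icc (0 : ℝ) 1 := ⟨le_rfl, zero_le_one⟩
  rw [XF_eq g w q hw hq s hs, XF_eq g w q hw hq 0 h0, vol_reindex, vol_reindex]
  have h1 := vol_freeSum (body_Q g w q hw hq s) (body_A g w q) (zero_mem_Q g w q hw hq s hs)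
    (zero_mem_A g w q)
  have h2 := vol_freeSum (body_Q g w q hw hq 0) (body_A g w q) (zero_mem_Q g w q hw hq 0 h0)
    (zero_mem_A g w q)
  rw [vol_Q, ← h2] at h1
  have h3 : (((Fintype.card (BB g q) + Fintype.card (CC g q)).factorial : ℕ) : ℝ≥0∞) ≠ 0 := by
    exact_mod_cast Nat.factorial_ne_zero _
  exact (ENNReal.mul_right_inj h3 (ENNReal.natCast_ne_top _)).1 h1

end Pool.Agent.Helper46.LW
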